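import Pool.Agent.N105.LT.Defs
import Pool.Agent.Helper717.LT.P_A_deriv

/-!
# Project LG (helper105): the derivative of `tr (R P(B) R)`
-/

set_option autoImplicit false

open MeasureTheory Set Filter Topology Real
open scoped Matrix

namespace Pool.Agent.N277.LG

open LTd Pool.Agent.N105.LT

lemma pol_der {n : ℕ} (K : ℕ) (c : ℕ → ℝ) {B R : ℝ → Mat n} (x : ℝ)
    (hB : ∀ i j, HasDerivAt (fun t => B t i j) (R x i j) x) (i j : Fin n) :
    HasDerivAt (fun t => Pol K c (B t) i j) (DPol K c (B x) (R x) i j) x := by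
  have h : HasDerivAt (fun t => ∑ a ∈ Finset.range K, c a * (B t ^ a) i j)
      (∑ a ∈ Finset.range K, c a * dpow (B x) (R x) a i j) x :=
    HasDerivAt.fun_sum fun a _ => (hasDerivAt_powE x hB a i j).const_mul (c a)
  have e1 : (fun t => Pol K c (B t) i j) =
      fun t => ∑ a ∈ Finset.range K, c a * (B t ^ a) i j := by
    funext t
    simp [Pol, Matrix.sum_apply]
  have e2 : DPol K c (B x) (R x) i j =
      ∑ a ∈ Finset.range K, c a * dpow (B x) (R x) a i j := by
    simp [DPol, Matrix.sum_apply]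
  rw [e1, e2]
  exact h

lemma pol_symm {n : ℕ} (K : ℕ) (c : ℕ → ℝ) {B : Mat n} (hB : Bᵀ = B) :
    (Pol K c B)ᵀ = Pol K c B := by
  unfold Pol
  rw [Matrix.transpose_sum]
  refine Finset.sum_congr rfl fun a _ => ?_
  rw [Matrix.transpose_smul, Matrix.transpose_pow, hB]

theorem der {n : ℕ} (K : ℕ) (c : ℕ → ℝ) {B R S : ℝ → Mat n} (x : ℝ)
    (hBs : ∀ i j, B x i j = B x j i) (hRs : ∀ i j, R x i j = R x j i)
    (hB : ∀ x i j, HasDerivAt (fun t => B t i j) (R x i j) x)
    (hR : ∀ x i j, HasDerivAt (fun t => R t i j) (S x i j + S x j i) x) :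
    HasDerivAt (fun t => (R t * Pol K c (B t) * R t).trace)
      (2 * (S x * (Pol K c (B x) * R x)).trace + 2 * (S x * (R x * Pol K c (B x))).trace +
        (R x * DPol K c (B x) (R x) * R x).trace) x := by
  have hBt : (B x)ᵀ = B x := by
    ext i j
    exact hBs j i
  have hRt : (R x)ᵀ = R x := by
    ext i j
    exact hRs j i
  have hPt : (Pol K c (B x))ᵀ = Pol K c (B x) := pol_symm K c hBt
  have hR' : ∀ i j, HasDerivAt (fun t => R t i j) ((S x + (S x)ᵀ) i j) x := fun i j => hR x i j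
  have h1 := hasDerivAt_mulE (M := R) (N := fun t => Pol K c (B t)) (M' := S x + (S x)ᵀ)
    (N' := DPol K c (B x) (R x)) hR' (pol_der K c x (hB x))
  have h2 := hasDerivAt_mulE (M := fun t => R t * Pol K c (B t)) (N := R)
    (M' := (S x + (S x)ᵀ) * Pol K c (B x) + R x * DPol K c (B x) (R x))
    (N' := S x + (S x)ᵀ) h1 hR'
  have h3 : HasDerivAt (fun t => ∑ i, (R t * Pol K c (B t) * R t) i i)
      (∑ i, (((S x + (S x)ᵀ) * Pol K c (B x) + R x * DPol K c (B x) (R x)) * R x +
        R x * Pol K c (B x) * (S x + (S x)ᵀ)) i i) x :=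
    HasDerivAt.fun_sum fun i _ => h2 i i
  have h4 : (∑ i, (((S x + (S x)ᵀ) * Pol K c (B x) + R x * DPol K c (B x) (R x)) * R x +
        R x * Pol K c (B x) * (S x + (S x)ᵀ)) i i) =
      2 * (S x * (Pol K c (B x) * R x)).trace + 2 * (S x * (R x * Pol K c (B x))).trace +
        (R x * DPol K c (B x) (R x) * R x).trace := by
    have e0 : ∀ P : Mat n, (∑ i, P i i) = P.trace := fun P => rfl
    rw [e0]
    have a1 : ((S x)ᵀ * Pol K c (B x) * R x).trace = (S x * (R x * Pol K c (B x))).trace := by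
      rw [← Matrix.trace_transpose, Matrix.transpose_mul, Matrix.transpose_mul,
        Matrix.transpose_transpose, hRt, hPt, ← mul_assoc, Matrix.trace_mul_comm]
    have a2 : (R x * Pol K c (B x) * S x).trace = (S x * (R x * Pol K c (B x))).trace := by
      rw [Matrix.trace_mul_comm]
    have a3 : (R x * Pol K c (B x) * (S x)ᵀ).trace = (S x * (Pol K c (B x) * R x)).trace := by
      rw [← Matrix.trace_transpose, Matrix.transpose_mul, Matrix.transpose_mul,
        Matrix.transpose_transpose, hRt, hPt]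
    simp only [add_mul, mul_add, Matrix.trace_add, mul_assoc]
    simp only [mul_assoc] at a1 a2 a3
    rw [a1, a2, a3]
    ring
  rw [h4] at h3
  exact h3

end Pool.Agent.N277.LG
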